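import Mathlib

set_option autoImplicit false

namespace Pool.Agent.Results.MP_5528af_co.FullRange

open Finset

/-- Number of neighbours of `v` in `U`. -/
noncomputable def degIn {n : ℕ} (G : SimpleGraph (Fin n)) (U : Finset (Fin n)) (v : Fin n) : ℕ := by
  classical exact (U.filter (fun w => G.Adj v w)).card

/-- Number of ordered adjacent pairs inside `U` (twice the number of edges). -/
noncomputable def E2 {n : ℕ} (G : SimpleGraph (Fin n)) (U : Finset (Fin n)) : ℕ :=
  ∑ v ∈ U, degIn G U v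

lemma E2_erase {n : ℕ} (G : SimpleGraph (Fin n)) (U : Finset (Fin n)) (v : Fin n) (hv : v ∈ U) :
    E2 G (U.erase v) + 2 * degIn G U v = E2 G U := by
  classical
  have h1 : E2 G U = degIn G U v + ∑ w ∈ U.erase v, degIn G U w := by
    unfold E2
    rw [← Finset.add_sum_erase U _ hv]
  have h2 : ∀ w ∈ U.erase v, degIn G U w = degIn G (U.erase v) w + (if G.Adj w v then 1 else 0) := by
    intro w hw
    unfold degIn
    have : (U.filter (fun x => G.Adj w x)) =
        ((U.erase v).filter (fun x => G.Adj w x)) ∪ (if G.Adj w v then {v} else ∅) := by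
      ext x
      by_cases hx : x = v
      · subst hx
        by_cases ha : G.Adj w x <;> simp [ha, hv]
      · by_cases ha : G.Adj w v <;> simp [ha, hx]
    rw [this, Finset.card_union_of_disjoint]
    · by_cases ha : G.Adj w v <;> simp [ha]
    · by_cases ha : G.Adj w v
      · simp [ha]
      · simp [ha]
  have h3 : ∑ w ∈ U.erase v, (if G.Adj w v then 1 else 0) = degIn G U v := by
    unfold degIn
    rw [← Finset.card_filter]
    congr 1
    ext x
    simp only [mem_filter, mem_erase]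
    constructor
    · rintro ⟨⟨h1, h2⟩, h3⟩
      exact ⟨h2, h3.symm⟩
    · rintro ⟨h1, h2⟩
      exact ⟨⟨h2.ne', h1⟩, h2.symm⟩
  rw [h1, Finset.sum_congr rfl h2, Finset.sum_add_distrib, h3]
  unfold E2
  ring

lemma exists_min {n : ℕ} (G : SimpleGraph (Fin n)) (U : Finset (Fin n)) (hU : U.Nonempty) :
    ∃ v ∈ U, U.card * degIn G U v ≤ E2 G U := by
  obtain ⟨v, hv, hmin⟩ := Finset.exists_min_image U (degIn G U) hU
  refine ⟨v, hv, ?_⟩
  unfold E2
  have := Finset.card_nsmul_le_sum U (degIn G U) (degIn G U v) hmin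
  simpa using this

lemma exists_sub {n : ℕ} (G : SimpleGraph (Fin n)) (m : ℕ) (hm : 2 ≤ m) :
    ∀ (u : ℕ) (U : Finset (Fin n)), U.card = u → m ≤ u →
      ∃ S ⊆ U, S.card = m ∧ E2 G U * (m * (m - 1)) ≤ E2 G S * (u * (u - 1)) := by
  intro u
  induction u with
  | zero => intro U hU h; omega
  | succ u ih =>
    intro U hU hmu
    rcases Nat.eq_or_lt_of_le hmu with h | h
    · refine ⟨U, Finset.Subset.refl _, by omega, ?_⟩
      rw [h]
    · have hne : U.Nonempty := by
        rw [← Finset.card_pos]; omega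
      obtain ⟨v, hv, hdeg⟩ := exists_min G U hne
      have hc : (U.erase v).card = u := by
        rw [Finset.card_erase_of_mem hv]; omega
      obtain ⟨S, hSU, hScard, hS⟩ := ih (U.erase v) hc (by omega)
      refine ⟨S, hSU.trans (Finset.erase_subset _ _), hScard, ?_⟩
      have he := E2_erase G U v hv
      rw [hU] at hdeg
      obtain ⟨w, rfl⟩ : ∃ w, u = w + 2 := ⟨u - 2, by omega⟩
      -- (u+1) * E2(U - v) ≥ (u-1) * E2 U
      have h1 : (w + 1) * E2 G U ≤ (w + 3) * E2 G (U.erase v) := by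
        nlinarith
      have h2 : (w + 2) - 1 = w + 1 := by omega
      rw [h2] at hS
      have h3 : (w + 2 + 1) - 1 = w + 2 := by omega
      rw [h3]
      have h4 : (w + 1) * (E2 G U * (m * (m - 1))) ≤ (w + 1) * (E2 G S * ((w + 2 + 1) * (w + 2))) := by
        calc (w + 1) * (E2 G U * (m * (m - 1))) = ((w + 1) * E2 G U) * (m * (m - 1)) := by ring
          _ ≤ ((w + 3) * E2 G (U.erase v)) * (m * (m - 1)) := Nat.mul_le_mul_right _ h1
          _ = (w + 3) * (E2 G (U.erase v) * (m * (m - 1))) := by ring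
          _ ≤ (w + 3) * (E2 G S * ((w + 2) * (w + 1))) := Nat.mul_le_mul_left _ hS
          _ = (w + 1) * (E2 G S * ((w + 2 + 1) * (w + 2))) := by ring
      exact Nat.le_of_mul_le_mul_left h4 (by omega)

/-- Link with the number of edges of the induced graph. -/
lemma E2_eq {n : ℕ} (G : SimpleGraph (Fin n)) (S : Finset (Fin n)) :
    E2 G S = 2 * (G.induce (S : Set (Fin n))).edgeSet.ncard := by
  classical
  have h1 := SimpleGraph.sum_degrees_eq_twice_card_edges (G.induce (S : Set (Fin n)))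
  have h2 : (G.induce (S : Set (Fin n))).edgeSet.ncard = (G.induce (S : Set (Fin n))).edgeFinset.card := by
    rw [← SimpleGraph.coe_edgeFinset, Set.ncard_coe_finset]
  rw [h2, ← h1]
  unfold E2
  rw [← Finset.sum_coe_sort S]
  refine Finset.sum_congr rfl ?_
  intro v _
  unfold degIn
  rw [← SimpleGraph.card_neighborFinset_eq_degree]
  symm
  refine Finset.card_bij (fun (w : ↥(S : Set (Fin n))) _ => (w : Fin n)) ?_ ?_ ?_
  · intro w hw
    simp only [SimpleGraph.mem_neighborFinset, SimpleGraph.comap_adj] at hw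
    simp only [mem_filter]
    exact ⟨by simp, hw⟩
  · intro a _ b _ h
    exact Subtype.ext h
  · intro b hb
    simp only [mem_filter] at hb
    refine ⟨⟨b, by simp [hb.1]⟩, ?_, rfl⟩
    simp only [SimpleGraph.mem_neighborFinset, SimpleGraph.comap_adj]
    exact hb.2

lemma step {n : ℕ} (G : SimpleGraph (Fin n)) (m : ℕ) (hm : 2 ≤ m) (B : ℝ)
    (hB : ∀ S : Finset (Fin n), S.card = m → (E2 G S : ℝ) < B)
    (U : Finset (Fin n)) (hU : m ≤ U.card) :
    ∃ v ∈ U, (degIn G U v : ℝ) ≤ B / (m * (m - 1)) * (U.card - 1) := by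
  have hne : U.Nonempty := by rw [← Finset.card_pos]; omega
  obtain ⟨v, hv, hdeg⟩ := exists_min G U hne
  obtain ⟨S, hSU, hScard, hS⟩ := exists_sub G m hm U.card U rfl hU
  refine ⟨v, hv, ?_⟩
  have hBS := hB S hScard
  have hm' : (2 : ℝ) ≤ (m : ℝ) := by exact_mod_cast hm
  have hU' : (m : ℝ) ≤ (U.card : ℝ) := by exact_mod_cast hU
  have hpos : (0 : ℝ) < (m : ℝ) * ((m : ℝ) - 1) := by nlinarith
  have hUpos : (0 : ℝ) < (U.card : ℝ) := by linarith
  have hdeg' : (U.card : ℝ) * (degIn G U v : ℝ) ≤ (E2 G U : ℝ) := by exact_mod_cast hdeg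
  have hS' : (E2 G U : ℝ) * ((m : ℝ) * ((m : ℝ) - 1)) ≤ (E2 G S : ℝ) * ((U.card : ℝ) * ((U.card : ℝ) - 1)) := by
    have h1 : ((m - 1 : ℕ) : ℝ) = (m : ℝ) - 1 := by
      rw [Nat.cast_sub (by omega)]; simp
    have h2 : ((U.card - 1 : ℕ) : ℝ) = (U.card : ℝ) - 1 := by
      rw [Nat.cast_sub (by omega)]; simp
    rw [← h1, ← h2]
    exact_mod_cast hS
  have hfac : (0 : ℝ) < (U.card : ℝ) - 1 := by linarith
  have h3 : (degIn G U v : ℝ) * ((m : ℝ) * ((m : ℝ) - 1)) ≤ B * ((U.card : ℝ) - 1) := by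
    have h4 : (U.card : ℝ) * ((degIn G U v : ℝ) * ((m : ℝ) * ((m : ℝ) - 1))) ≤
        (U.card : ℝ) * (B * ((U.card : ℝ) - 1)) := by
      calc (U.card : ℝ) * ((degIn G U v : ℝ) * ((m : ℝ) * ((m : ℝ) - 1)))
          = ((U.card : ℝ) * (degIn G U v : ℝ)) * ((m : ℝ) * ((m : ℝ) - 1)) := by ring
        _ ≤ (E2 G U : ℝ) * ((m : ℝ) * ((m : ℝ) - 1)) := mul_le_mul_of_nonneg_right hdeg' hpos.le
        _ ≤ (E2 G S : ℝ) * ((U.card : ℝ) * ((U.card : ℝ) - 1)) := hS'
        _ ≤ B * ((U.card : ℝ) * ((U.card : ℝ) - 1)) := by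
            apply mul_le_mul_of_nonneg_right hBS.le
            positivity
        _ = (U.card : ℝ) * (B * ((U.card : ℝ) - 1)) := by ring
    exact le_of_mul_le_mul_left h4 hUpos
  rw [div_mul_eq_mul_div, le_div_iff₀ hpos]
  exact h3

lemma greedy {n : ℕ} (G : SimpleGraph (Fin n)) (m : ℕ) (hm : 2 ≤ m) (B δ : ℝ)
    (hδ : δ = B / (m * (m - 1))) (hδ0 : 0 ≤ δ) (hδ1 : δ ≤ 1)
    (hB : ∀ S : Finset (Fin n), S.card = m → (E2 G S : ℝ) < B)
    (hlarge : (m : ℝ) + m ≤ n * (1 - δ) ^ m) :
    ∀ k : ℕ, k ≤ m → ∃ I U : Finset (Fin n), I.card = k ∧ (∀ a ∈ I, a ∉ U) ∧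
      (∀ a ∈ I, ∀ b ∈ I, ¬ G.Adj a b) ∧ (∀ a ∈ I, ∀ b ∈ U, ¬ G.Adj a b) ∧
      (n : ℝ) * (1 - δ) ^ k - k ≤ U.card := by
  classical
  intro k
  induction k with
  | zero =>
    intro _
    refine ⟨∅, Finset.univ, by simp, by simp, by simp, by simp, by simp⟩
  | succ k ih =>
    intro hk
    obtain ⟨I, U, hI, hdisj, hind, hIU, hUc⟩ := ih (by omega)
    have hpow : (1 - δ) ^ m ≤ (1 - δ) ^ k :=
      pow_le_pow_of_le_one (by linarith) (by linarith) (by omega)
    have hn0 : (0 : ℝ) ≤ n := Nat.cast_nonneg n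
    have hkm : (k : ℝ) ≤ m := by exact_mod_cast (by omega : k ≤ m)
    have hUm : (m : ℝ) ≤ U.card := by
      have := mul_le_mul_of_nonneg_left hpow hn0
      linarith
    have hUm' : m ≤ U.card := by exact_mod_cast hUm
    obtain ⟨v, hvU, hvd⟩ := step G m hm B hB U hUm'
    rw [← hδ] at hvd
    refine ⟨insert v I, U.filter (fun w => w ≠ v ∧ ¬ G.Adj v w), ?_, ?_, ?_, ?_, ?_⟩
    · rw [Finset.card_insert_of_notMem, hI]
      intro h
      exact hdisj v h hvU
    · intro a ha
      rw [Finset.mem_insert] at ha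
      rcases ha with rfl | ha
      · simp
      · simp [hdisj a ha]
    · intro a ha b hb hab
      rw [Finset.mem_insert] at ha hb
      rcases ha with rfl | ha
      · rcases hb with rfl | hb
        · exact G.loopless.irrefl _ hab
        · exact hIU b hb a hvU hab.symm
      · rcases hb with rfl | hb
        · exact hIU a ha b hvU hab
        · exact hind a ha b hb hab
    · intro a ha b hb hab
      rw [Finset.mem_filter] at hb
      rw [Finset.mem_insert] at ha
      rcases ha with rfl | ha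
      · exact hb.2.2 hab
      · exact hIU a ha b hb.1 hab
    · -- cardinality
      have h1 : U.card = (U.filter (fun w => w ≠ v ∧ ¬ G.Adj v w)).card + 1 + degIn G U v := by
        have hsplit : U = (U.filter (fun w => w ≠ v ∧ ¬ G.Adj v w)) ∪ ({v} ∪ U.filter (fun w => G.Adj v w)) := by
          ext x
          simp only [mem_union, mem_filter, mem_singleton]
          constructor
          · intro hx
            by_cases hxv : x = v
            · right; left; exact hxv
            · by_cases ha : G.Adj v x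
              · right; right; exact ⟨hx, ha⟩
              · left; exact ⟨hx, hxv, ha⟩
          · rintro (h | h | h)
            · exact h.1
            · rw [h]; exact hvU
            · exact h.1
        have hd1 : Disjoint ({v} : Finset (Fin n)) (U.filter (fun w => G.Adj v w)) := by
          simp
        have hd2 : Disjoint (U.filter (fun w => w ≠ v ∧ ¬ G.Adj v w)) ({v} ∪ U.filter (fun w => G.Adj v w)) := by
          rw [Finset.disjoint_left]
          intro x hx hx2
          simp only [mem_union, mem_filter, mem_singleton] at hx hx2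
          rcases hx2 with h | h
          · exact hx.2.1 h
          · exact hx.2.2 h.2
        conv_lhs => rw [hsplit]
        rw [Finset.card_union_of_disjoint hd2, Finset.card_union_of_disjoint hd1]
        unfold degIn
        simp
        ring
      have h2 : (U.card : ℝ) = ((U.filter (fun w => w ≠ v ∧ ¬ G.Adj v w)).card : ℝ) + 1 + degIn G U v := by
        exact_mod_cast h1
      have h3 : ((U.card : ℝ) - 1) * (1 - δ) ≤ ((U.filter (fun w => w ≠ v ∧ ¬ G.Adj v w)).card : ℝ) := by
        nlinarith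
      have h4 : ((n : ℝ) * (1 - δ) ^ k - k - 1) * (1 - δ) ≤ ((U.card : ℝ) - 1) * (1 - δ) := by
        apply mul_le_mul_of_nonneg_right _ (by linarith)
        linarith
      have h5 : (n : ℝ) * (1 - δ) ^ (k + 1) - ((k + 1 : ℕ) : ℝ) ≤ ((n : ℝ) * (1 - δ) ^ k - k - 1) * (1 - δ) := by
        push_cast
        have hk0 : (0 : ℝ) ≤ (k : ℝ) := Nat.cast_nonneg k
        rw [pow_succ]
        nlinarith
      linarith

lemma small {n : ℕ} (G : SimpleGraph (Fin n)) (m : ℕ) (hm : 2 ≤ m) (hmn : m ≤ n)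
    (hind : ∀ S : Finset (Fin n), S.card = m → ∃ u ∈ S, ∃ v ∈ S, G.Adj u v) (x : ℕ)
    (hx1 : 2 * x ≤ m) (hx2 : x ≤ n - m + 1) :
    ∃ S : Finset (Fin n), S.card = m ∧ x ≤ E2 G S := by
  classical
  -- a maximum independent set
  let F : Finset (Finset (Fin n)) := Finset.univ.filter (fun I => ∀ a ∈ I, ∀ b ∈ I, ¬ G.Adj a b)
  have hF : F.Nonempty := ⟨∅, by simp [F]⟩
  obtain ⟨I, hIF, hmax⟩ := Finset.exists_max_image F Finset.card hF
  have hI : ∀ a ∈ I, ∀ b ∈ I, ¬ G.Adj a b := by
    exact (Finset.mem_filter.mp hIF).2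
  have hIm : I.card < m := by
    by_contra h
    push Not at h
    obtain ⟨S, hSI, hS⟩ := Finset.exists_subset_card_eq h
    obtain ⟨u, hu, v, hv, huv⟩ := hind S hS
    exact hI u (hSI hu) v (hSI hv) huv
  have hnb : ∀ v : Fin n, v ∉ I → ∃ w ∈ I, G.Adj v w := by
    intro v hv
    by_contra h
    push Not at h
    have hins : insert v I ∈ F := by
      simp only [F, mem_filter, mem_univ, true_and]
      intro a ha b hb hab
      rw [Finset.mem_insert] at ha hb
      rcases ha with rfl | ha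
      · rcases hb with rfl | hb
        · exact G.loopless.irrefl _ hab
        · exact h b hb hab
      · rcases hb with rfl | hb
        · exact h a ha hab.symm
        · exact hI a ha b hb hab
    have := hmax _ hins
    rw [Finset.card_insert_of_notMem hv] at this
    omega
  choose! f hf using hnb
  have hcompl : x ≤ (Iᶜ).card := by
    rw [Finset.card_compl, Fintype.card_fin]; omega
  obtain ⟨X, hXI, hX⟩ := Finset.exists_subset_card_eq hcompl
  have hS0 : (X ∪ X.image f).card ≤ m := by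
    calc (X ∪ X.image f).card ≤ X.card + (X.image f).card := Finset.card_union_le _ _
      _ ≤ X.card + X.card := Nat.add_le_add_left Finset.card_image_le _
      _ ≤ m := by omega
  obtain ⟨S, hS0S, _, hS⟩ := Finset.exists_subsuperset_card_eq (Finset.subset_univ (X ∪ X.image f)) hS0
    (by simpa using hmn)
  refine ⟨S, hS, ?_⟩
  have hXS : X ⊆ S := (Finset.subset_union_left).trans hS0S
  calc x = ∑ v ∈ X, 1 := by simp [hX]
    _ ≤ ∑ v ∈ X, degIn G S v := by
        refine Finset.sum_le_sum ?_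
        intro v hv
        unfold degIn
        rw [Nat.one_le_iff_ne_zero, ← Nat.pos_iff_ne_zero, Finset.card_pos]
        have hvI : v ∉ I := by
          have := hXI hv
          simpa using this
        refine ⟨f v, ?_⟩
        rw [Finset.mem_filter]
        refine ⟨hS0S ?_, (hf v hvI).2⟩
        exact Finset.mem_union_right _ (Finset.mem_image_of_mem f hv)
    _ ≤ ∑ v ∈ S, degIn G S v := Finset.sum_le_sum_of_subset hXS
    _ = E2 G S := rfl

theorem base (n : ℕ) (G : SimpleGraph (Fin n)) (m : ℕ)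
    (hlog : Real.log (n : ℝ) ≤ (m : ℝ)) (hmn : m ≤ n)
    (hind : ∀ S : Finset (Fin n), S.card = m → ∃ u ∈ S, ∃ v ∈ S, G.Adj u v) :
    ∃ S : Finset (Fin n), S.card = m ∧
      1 / 32 * (m : ℝ) * Real.log ((n : ℝ) / (m : ℝ)) ≤
        ((G.induce (S : Set (Fin n))).edgeSet.ncard : ℝ) := by
  -- m ≥ 2
  have hm : 2 ≤ m := by
    by_contra h
    have h' : m ≤ 1 := by omega
    obtain ⟨S, _, hS⟩ := Finset.exists_subset_card_eq (s := (Finset.univ : Finset (Fin n))) (n := m)
      (by simpa using hmn)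
    obtain ⟨u, hu, v, hv, huv⟩ := hind S hS
    have hle : S.card ≤ 1 := by omega
    have := Finset.card_le_one.mp hle u hu v hv
    rw [this] at huv
    exact G.loopless.irrefl _ huv
  have hm' : (2 : ℝ) ≤ (m : ℝ) := by exact_mod_cast hm
  have hmn' : (m : ℝ) ≤ (n : ℝ) := by exact_mod_cast hmn
  have hmpos : (0 : ℝ) < m := by linarith
  have hnpos : (0 : ℝ) < n := by linarith
  have hratio : (0 : ℝ) < (n : ℝ) / m := by positivity
  have hL0 : 0 ≤ Real.log ((n : ℝ) / m) := Real.log_nonneg (by rw [le_div_iff₀ hmpos]; linarith)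
  set L := Real.log ((n : ℝ) / m) with hLdef
  rcases lt_or_ge n (4 * m) with hsm | hbig
  · -- small ratio
    obtain ⟨S, hS, hxS⟩ := small G m hm hmn hind (min (m / 2) (n - m + 1)) (by omega) (by omega)
    refine ⟨S, hS, ?_⟩
    have hE := E2_eq G S
    have hLle : (m : ℝ) * L ≤ n - m := by
      have h1 : L ≤ (n : ℝ) / m - 1 := Real.log_le_sub_one_of_pos hratio
      calc (m : ℝ) * L ≤ m * ((n : ℝ) / m - 1) := mul_le_mul_of_nonneg_left h1 hmpos.le
        _ = n - m := by field_simp
    have hE' : (E2 G S : ℝ) = 2 * ((G.induce (S : Set (Fin n))).edgeSet.ncard : ℝ) := by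
      exact_mod_cast hE
    have key : ((n : ℝ) - m) ≤ 16 * (E2 G S : ℝ) := by
      have : n - m ≤ 16 * E2 G S := by
        rcases min_cases (m / 2) (n - m + 1) with ⟨h1, _⟩ | ⟨h1, _⟩ <;> rw [h1] at hxS <;> omega
      have h2 : ((n - m : ℕ) : ℝ) ≤ 16 * (E2 G S : ℝ) := by exact_mod_cast this
      rwa [Nat.cast_sub hmn] at h2
    nlinarith
  · -- large ratio
    by_contra hcon
    push Not at hcon
    have hbig' : (4 : ℝ) * m ≤ n := by exact_mod_cast hbig
    have hB : ∀ S : Finset (Fin n), S.card = m → (E2 G S : ℝ) < 2 * (1 / 32 * m * L) := by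
      intro S hS
      have h1 := hcon S hS
      have h2 : (E2 G S : ℝ) = 2 * ((G.induce (S : Set (Fin n))).edgeSet.ncard : ℝ) := by
        exact_mod_cast E2_eq G S
      rw [h2]
      linarith
    set B : ℝ := 2 * (1 / 32 * m * L) with hBdef
    set δ : ℝ := B / (m * (m - 1)) with hδdef
    have hLm : L ≤ m := by
      have : L = Real.log n - Real.log m := by
        rw [hLdef, Real.log_div hnpos.ne' hmpos.ne']
      have h2 : 0 ≤ Real.log (m : ℝ) := Real.log_nonneg (by linarith)
      linarith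
    have hmm : (0 : ℝ) < (m : ℝ) * ((m : ℝ) - 1) := by nlinarith
    have hδ0 : 0 ≤ δ := by
      rw [hδdef]
      apply div_nonneg _ hmm.le
      rw [hBdef]; positivity
    have hδm : δ * m ≤ L / 8 := by
      rw [hδdef, hBdef, div_mul_eq_mul_div, div_le_iff₀ hmm]
      nlinarith [mul_nonneg hL0 hmpos.le, mul_nonneg (mul_nonneg hL0 hmpos.le) (by linarith : (0:ℝ) ≤ (m:ℝ) - 2)]
    have hδ8 : δ ≤ 1 / 8 := by
      have : δ * m ≤ m / 8 := by linarith
      by_contra h
      push Not at h
      nlinarith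
    have hlarge : (m : ℝ) + m ≤ n * (1 - δ) ^ m := by
      have h1 : -(2 * δ) ≤ Real.log (1 - δ) := by
        have h2 := Real.one_sub_inv_le_log_of_pos (show (0:ℝ) < 1 - δ by linarith)
        have h3 : -(2 * δ) ≤ 1 - (1 - δ)⁻¹ := by
          have h4 : (1 - δ)⁻¹ ≤ 1 + 2 * δ := by
            rw [inv_le_iff_one_le_mul₀ (by linarith)]
            nlinarith
          linarith
        linarith
      have h2 : Real.exp (-(L / 4)) ≤ (1 - δ) ^ m := by
        have h3 : (1 - δ) ^ m = Real.exp (m * Real.log (1 - δ)) := by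
          rw [mul_comm, Real.exp_mul, Real.exp_log (by linarith), Real.rpow_natCast]
        rw [h3]
        apply Real.exp_le_exp.mpr
        nlinarith
      have h3 : (n : ℝ) = m * Real.exp L := by
        rw [hLdef, Real.exp_log hratio]
        field_simp
      have h4 : Real.log 4 ≤ L := by
        rw [hLdef]
        apply Real.log_le_log (by norm_num)
        rw [le_div_iff₀ hmpos]
        linarith
      have h5 : (2 : ℝ) ≤ Real.exp (L - L / 4) := by
        have h6 : Real.log 4 = 2 * Real.log 2 := by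
          rw [show (4:ℝ) = 2 ^ 2 by norm_num, Real.log_pow]; norm_num
        have h7 : 0 < Real.log 2 := Real.log_pos (by norm_num)
        calc (2 : ℝ) = Real.exp (Real.log 2) := by rw [Real.exp_log (by norm_num)]
          _ ≤ Real.exp (L - L / 4) := by
            apply Real.exp_le_exp.mpr
            linarith
      calc (m : ℝ) + m = m * 2 := by ring
        _ ≤ m * Real.exp (L - L / 4) := mul_le_mul_of_nonneg_left h5 hmpos.le
        _ = m * (Real.exp L * Real.exp (-(L / 4))) := by rw [← Real.exp_add]; ring_nf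
        _ = (m * Real.exp L) * Real.exp (-(L / 4)) := by ring
        _ = n * Real.exp (-(L / 4)) := by rw [← h3]
        _ ≤ n * (1 - δ) ^ m := mul_le_mul_of_nonneg_left h2 hnpos.le
    obtain ⟨I, U, hI, _, hIind, _, _⟩ := greedy G m hm B δ hδdef hδ0 (by linarith) hB hlarge m le_rfl
    obtain ⟨u, hu, v, hv, huv⟩ := hind I hI
    exact hIind u hu v hv huv


theorem transfer {V : Type} [Fintype V] (G : SimpleGraph V) {k : ℕ} (f : Fin k ↪ V)
    (S : Finset (Fin k)) :
    ((G.comap f).induce (S : Set (Fin k))).edgeSet.ncard ≤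
      (G.induce ((S.map f : Finset V) : Set V)).edgeSet.ncard := by
  classical
  let φ : (G.comap f).induce (S : Set (Fin k)) →g G.induce ((S.map f : Finset V) : Set V) :=
    { toFun := fun x => ⟨f x.1, by simpa using x.2⟩
      map_rel' := fun {a b} h => h }
  have hφ : Function.Injective φ := fun a b h => Subtype.ext (f.injective (congrArg Subtype.val h))
  rw [← Nat.card_coe_set_eq, ← Nat.card_coe_set_eq]
  exact Nat.card_le_card_of_injective _ (SimpleGraph.Hom.mapEdgeSet.injective φ hφ)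

/-- Full range of `m`: there is no lower bound on `m` (below `log n` the bound `m log (n / m)` is
replaced by `m ^ 2`, the trivial order of magnitude), and the constant is explicit. -/
theorem result (V : Type) [Fintype V] (G : SimpleGraph V) (m : ℕ) (hm : 1 ≤ m)
    (hmn : m ≤ Fintype.card V)
    (hind : ∀ S : Finset V, S.card = m → ∃ u ∈ S, ∃ v ∈ S, G.Adj u v) :
    ∃ S : Finset V, S.card = m ∧
      1 / 128 * (m : ℝ) * min (m : ℝ) (Real.log ((Fintype.card V : ℝ) / (m : ℝ))) ≤
        ((G.induce (S : Set V)).edgeSet.ncard : ℝ) := by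
  have hm0 : (0 : ℝ) < m := by exact_mod_cast hm
  have go : ∀ (k : ℕ) (f : Fin k ↪ V), Real.log (k : ℝ) ≤ (m : ℝ) → m ≤ k →
      ∃ S : Finset V, S.card = m ∧ 1 / 32 * (m : ℝ) * Real.log ((k : ℝ) / (m : ℝ)) ≤
        ((G.induce (S : Set V)).edgeSet.ncard : ℝ) := by
    intro k f h1 h2
    obtain ⟨S, hS, h⟩ := base k (G.comap f) m h1 h2 fun S hS => by
      obtain ⟨u, hu, v, hv, huv⟩ := hind (S.map f) (by rw [card_map, hS])
      obtain ⟨u', hu', rfl⟩ := mem_map.1 hu
      obtain ⟨v', hv', rfl⟩ := mem_map.1 hv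
      exact ⟨u', hu', v', hv', huv⟩
    exact ⟨S.map f, by rw [card_map, hS], h.trans (by exact_mod_cast transfer G f S)⟩
  rcases le_or_gt (Real.log (Fintype.card V : ℝ)) (m : ℝ) with hlog | hlog
  · obtain ⟨S, h1, h2⟩ := go _ (Fintype.equivFin V).symm.toEmbedding hlog hmn
    refine ⟨S, h1, le_trans ?_ h2⟩
    have hL : 0 ≤ Real.log ((Fintype.card V : ℝ) / m) := Real.log_nonneg (by
      rw [le_div_iff₀ hm0, one_mul]; exact_mod_cast hmn)
    calc _ ≤ 1 / 128 * (m : ℝ) * Real.log ((Fintype.card V : ℝ) / m) :=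
          mul_le_mul_of_nonneg_left (min_le_right _ _) (by positivity)
      _ ≤ _ := mul_le_mul_of_nonneg_right (by linarith) hL
  · have hV : (0 : ℝ) < Fintype.card V := by exact_mod_cast (by omega : 0 < Fintype.card V)
    have hexp : Real.exp m < Fintype.card V := by rwa [Real.lt_log_iff_exp_lt hV] at hlog
    have hk1 : ⌊Real.exp m⌋₊ ≤ Fintype.card V := by
      rw [← Nat.floor_natCast (R := ℝ) (Fintype.card V)]
      exact Nat.floor_mono hexp.le
    have hmk : m ≤ ⌊Real.exp m⌋₊ := Nat.le_floor (by linarith [Real.add_one_le_exp (m : ℝ)])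
    have hk0 : (0 : ℝ) < (⌊Real.exp m⌋₊ : ℝ) := by exact_mod_cast (by omega : 0 < ⌊Real.exp m⌋₊)
    have hk2 : Real.log (⌊Real.exp m⌋₊ : ℝ) ≤ m := by
      rw [Real.log_le_iff_le_exp hk0]
      exact Nat.floor_le (Real.exp_pos _).le
    obtain ⟨S, h1, h2⟩ := go ⌊Real.exp m⌋₊
      ((Fin.castLEEmb hk1).trans (Fintype.equivFin V).symm.toEmbedding) hk2 hmk
    refine ⟨S, h1, le_trans ?_ h2⟩
    have hm1 : (1 : ℝ) ≤ m := by exact_mod_cast hm
    have hbound : (m : ℝ) / 4 ≤ Real.log ((⌊Real.exp m⌋₊ : ℝ) / m) := by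
      rw [Real.le_log_iff_exp_le (by positivity), le_div_iff₀ hm0]
      have a1 : Real.exp m < (⌊Real.exp m⌋₊ : ℝ) + 1 := Nat.lt_floor_add_one _
      have a2 : Real.exp (m : ℝ) = Real.exp (m / 4) * Real.exp (3 * m / 4) := by
        rw [← Real.exp_add]; congr 1; ring
      have a3 : 1 + 3 * (m : ℝ) / 4 + (3 * (m : ℝ) / 4) ^ 2 / 2 ≤ Real.exp (3 * m / 4) :=
        Real.quadratic_le_exp_of_nonneg (by positivity)
      have a4 : (m : ℝ) + 1 ≤ Real.exp (3 * m / 4) := by nlinarith
      have a5 : (1 : ℝ) ≤ Real.exp (m / 4) := Real.one_le_exp (by positivity)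
      nlinarith [mul_le_mul_of_nonneg_left a4 (by linarith : (0 : ℝ) ≤ Real.exp (m / 4))]
    calc _ ≤ 1 / 128 * (m : ℝ) * (m : ℝ) :=
          mul_le_mul_of_nonneg_left (min_le_left _ _) (by positivity)
      _ = 1 / 32 * (m : ℝ) * (m / 4) := by ring
      _ ≤ _ := mul_le_mul_of_nonneg_left hbound (by positivity)

end Pool.Agent.Results.MP_5528af_co.FullRange
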